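import Pool.Agent.H.MP_94b2f9_an.B

set_option autoImplicit false

namespace Pool.Agent.Results.MP_94b2f9_an.No

open Filter Topology
open scoped ENNReal

/-- smooth bounded local identities at zero -/
def Blid {X : Type} [NormedAddCommGroup X] [NormedSpace ℝ X] (H : X → X) : Prop :=
  ContDiff ℝ (⊤ : ℕ∞) H ∧ (∃ M : ℝ, ∀ x, ‖H x‖ ≤ M) ∧ ∀ᶠ x in 𝓝 (0 : X), H x = x

theorem result (p : ℝ≥0∞) [Fact (1 ≤ p)] (hp : p ≠ ⊤) (hne : ∀ k : ℕ, p.toReal ≠ 2 * k) :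
    ¬ ∃ H : lp (fun _ : ℕ => ℝ) p → lp (fun _ : ℕ => ℝ) p, Blid H :=
  fun ⟨_, h1, ⟨_, h2⟩, h3⟩ => Pool.Agent.H.MP_94b2f9_an.main hp hne h1 h2 h3

end Pool.Agent.Results.MP_94b2f9_an.No
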